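import Mathlib
import Pool.Agent.Q283.T3.LnK

/-!
# The cubic twists `E_{D m_1}, E_{D m_2}, …` for almost all `D`: a law of large numbers

`K` is the field of third roots of unity, `E_D : y² + D y = x³` for `D ≠ 0` in `𝓞 K`: these are the
cubic twists over `K` of `E : y² + y = x³`. Let `m_0, m_1, m_2, …` be ANY infinite sequence of
different squarefree elements of `𝓞 K`, `1` modulo `3`, with norms `1` modulo `9` (for example of
primes). Let `D` run through ALL squarefree elements, `1` modulo `3`, with norm different from `1`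
modulo `9`, ordered by the norm (at least `c X` of norm at most `X`). For every such `D` and every `k`
the Selmer group of the endomorphism `√-3` of `E_{D m_k}` over `K` has order `3 ^ (r_k(D) + 1)`.

* For almost all `D` the numbers `r_0(D), r_1(D), r_2(D), …` behave like independent random variables
  with the law `prob r = ∏_{i ≥ 0} (1 - 3^{-(2 i + 1)}) / ((3 - 1) (9 - 1) ⋯ (3 ^ r - 1))` in the sense
  of the weak law of large numbers: for EVERY set `T` of natural numbers with measure `p`, every `n`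
  and every `ε > 0` the upper density of the `D` for which the frequency of `{k < n | r_k(D) ∈ T}`
  differs from `p` by at least `ε` is at most `p (1 - p) / (ε² n)`, which tends to `0` with `n`.
* For every `r` and every `N`, for `100 %` of the `D` the order of the Selmer group of `E_{D m_k}` is
  `3 ^ (r + 1)` for at least `N` of the `k`.
* For every `N`, for `100 %` of the `D` the conjecture of Birch and Swinnerton-Dyer on the rank holds
  for at least `N` of the curves `E_{D m_k}` over `K` with rank and order of vanishing `0`: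
  `E_{D m_k}(K)` is finite, the `L`-function of `E_{D m_k}` over `K` is entire and does not vanish at
  `1`; and `Ш(E_{D m_k} / K)[3^∞] = 0`.

The twist by a single `m_k` has these properties for the proportion `prob 0 = 0.639...` of the `D`; that
almost every `D` has such a twist in every infinite sequence of twists is a consequence of the
asymptotic independence of the Selmer groups (the law of the pairs `(r_k, r_l)`).
-/

set_option autoImplicit false

namespace Pool.Agent.Results.MP_cd906c_nt.AlmostAllTwistSequences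

open NumberField WeierstrassCurve Filter
open Pool.Agent.TH841.SH.D (Coch)
open Pool.Agent.TH841.NF.D (Sha IsShaCoc)
open scoped Classical

/-- The curve `E_D : y² + D y = x³`. -/
def curve {F : Type} [Field F] (D : F) : WeierstrassCurve F := ⟨0, 0, D, 0, 0⟩

variable {K : Type} [Field K] [NumberField K]

/-- The Selmer group of the endomorphism `√-3` of `E_D` over `K`: the continuous cocycles with values
in its kernel `{0, (0, 0), (0, -D)}` (the Galois group acts trivially on it, so these cocycles are the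
classes) that are coboundaries in `E_D` at all the places of `K`. -/
def Sel (D : 𝓞 K) : Set (Coch (curve (D : K))) :=
  {f | IsShaCoc (curve (D : K)) f ∧ ∀ σ, f σ = 0 ∨ ∃ y h, f σ = Affine.Point.some 0 y h}

/-- The rank of `E_D(K)` over `ℤ`. -/
noncomputable def rank (D : 𝓞 K) : ℕ := Module.finrank ℤ (curve (D : K)).toAffine.Point

/-- `E_D(K)` is finite and the `3`-primary part of `Ш(E_D / K)` is trivial. -/
def FiniteAndTrivial (D : 𝓞 K) : Prop :=
  Finite (curve (D : K)).toAffine.Point ∧ ∀ (n : ℕ) (x : Sha (curve (D : K))), 3 ^ n • x = 0 → x = 0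

/-- The `L`-function of `E_D` over `K` is entire and does not vanish at `1`. -/
def Nonvanishing (D : 𝓞 K) : Prop := ∃ L : ℂ → ℂ, Differentiable ℂ L ∧
  (∀ s : ℂ, 3 / 2 < s.re →
    LSeriesSummable ((fun n : ℤ => (n : ℂ)) ∘ (curve (D : K)).LFunction) s ∧
      L s = (curve (D : K)).LSeries s) ∧ L 1 ≠ 0

/-- `D` is squarefree and `1` modulo `3`, and its norm is not `1` modulo `9`. -/
def InClass (D : 𝓞 K) : Prop :=
  (3 : 𝓞 K) ∣ D - 1 ∧ Squarefree D ∧ ¬ (9 : ℤ) ∣ Algebra.norm ℤ D - 1

/-- The `D` of the class of norm at most `X`. -/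
def upTo (K : Type) [Field K] [NumberField K] (X : ℕ) : Set (𝓞 K) :=
  {D : 𝓞 K | Algebra.norm ℤ D ≤ X ∧ InClass D}

/-- The proportion of the `D` in `upTo K X` with the property `P`. -/
noncomputable def proportion (P : 𝓞 K → Prop) (X : ℕ) : ℝ :=
  ({D : 𝓞 K | D ∈ upTo K X ∧ P D}.ncard : ℝ) / ((upTo K X).ncard : ℝ)

/-- The `m_k` are different, squarefree and `1` modulo `3`, and their norms are `1` modulo `9`. -/
structure Masks (m : ℕ → 𝓞 K) : Prop where
  inj : Function.Injective m
  three : ∀ k, (3 : 𝓞 K) ∣ m k - 1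
  nine : ∀ k, (9 : ℤ) ∣ Algebra.norm ℤ (m k) - 1
  sqf : ∀ k, Squarefree (m k)

/-- `∏_{i ≥ 0} (1 - 3^{-(2 i + 1)}) / ((3 - 1) (9 - 1) ⋯ (3 ^ r - 1))`. -/
noncomputable def prob (r : ℕ) : ℝ :=
  (∏' i : ℕ, (1 - (1 / 3 : ℝ) ^ (2 * i + 1))) / ∏ i ∈ Finset.range r, ((3 : ℝ) ^ (i + 1) - 1)

/-- The measure of a set of natural numbers for the law `prob`. -/
noncomputable def measure (T : Set ℕ) : ℝ := ∑' r : T, prob r

/-- The order of the Selmer group of `E_D` is `3 ^ (r + 1)` with `r` in `T`. -/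
def CorankIn (T : Set ℕ) (D : 𝓞 K) : Prop := ∃ r ∈ T, (Sel D).ncard = 3 ^ (r + 1)

/-- The frequency of the `k < n` for which the corank of `E_{D m_k}` is in `T`. -/
noncomputable def frequency (m : ℕ → 𝓞 K) (T : Set ℕ) (n : ℕ) (D : 𝓞 K) : ℝ :=
  (((Finset.range n).filter fun k => CorankIn T (D * m k)).card : ℝ) / n

theorem result (K : Type) [Field K] [NumberField K] [IsCyclotomicExtension {3} ℚ K]
    (m : ℕ → 𝓞 K) (hm : Masks m) :
    (∃ c : ℝ, 0 < c ∧ ∃ X₀ : ℕ, ∀ X : ℕ, X₀ ≤ X → c * X ≤ ((upTo K X).ncard : ℝ)) ∧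
    (∀ D : 𝓞 K, InClass D → ∀ k, ∃ r : ℕ, (Sel (D * m k)).ncard = 3 ^ (r + 1) ∧
      rank (D * m k) ≤ 2 * r ∧ (r = 0 ↔ FiniteAndTrivial (D * m k)) ∧
      (r = 0 → Nonvanishing (D * m k))) ∧
    (∀ (T : Set ℕ) (n : ℕ), 0 < n → ∀ ε : ℝ, 0 < ε → ∀ δ : ℝ, 0 < δ → ∃ X₀ : ℕ, ∀ X : ℕ, X₀ ≤ X →
      proportion (fun D => ε ≤ |frequency m T n D - measure T|) X ≤
        measure T * (1 - measure T) / (ε ^ 2 * n) + δ) ∧
    (∀ r N : ℕ, Tendsto (proportion fun D => ∃ F : Finset ℕ, F.card = N ∧
      ∀ k ∈ F, (Sel (D * m k)).ncard = 3 ^ (r + 1)) atTop (nhds 1)) ∧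
    (∀ N : ℕ, Tendsto (proportion fun D => ∃ F : Finset ℕ, F.card = N ∧
      ∀ k ∈ F, FiniteAndTrivial (D * m k) ∧ Nonvanishing (D * m k)) atTop (nhds 1)) ∧
    HasSum prob 1 ∧ (∀ r, 0 < prob r) ∧ 0.639 < prob 0 ∧ prob 0 < 0.6391 := by
  have hm' : Q283.T3B.Seq m := ⟨hm.inj, hm.three, hm.nine, hm.sqf⟩
  have e0 : ∀ X : ℕ, (upTo K X).ncard = (Q283.T3B.SK K X).card := by
    intro X
    rw [← Set.ncard_coe_finset]
    congr 1
    ext D
    exact Q283.T3B.mem_SK.symm
  have e1 : ∀ (P : 𝓞 K → Prop) (X : ℕ), {D : 𝓞 K | D ∈ upTo K X ∧ P D}.ncard =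
      ((Q283.T3B.SK K X).filter fun D => P D).card := by
    intro P X
    rw [← Set.ncard_coe_finset]
    congr 1
    ext D
    rw [Finset.mem_coe, Finset.mem_filter, Q283.T3B.mem_SK]
    exact Iff.rfl
  have hone : ∀ D : 𝓞 K, InClass D → ∀ k, ∃ r : ℕ, (Sel (D * m k)).ncard = 3 ^ (r + 1) ∧
      rank (D * m k) ≤ 2 * r ∧ (r = 0 ↔ FiniteAndTrivial (D * m k)) ∧
      (r = 0 → Nonvanishing (D * m k)) := by
    intro D hD k
    obtain ⟨r, h1, h2, h3⟩ := Q283.T3B.one_D (K := K) (D := D) (m := m k) hD (hm.three k)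
      (hm.nine k)
    exact ⟨r, h1, h2, h3, fun h => Q283.T3B.tri_AN (K := K) (D := D) (m := m k) hD (hm.three k)
      (hm.nine k) (hm.sqf k) (h3.1 h)⟩
  have hmany : ∀ r N : ℕ, Tendsto (proportion fun D : 𝓞 K => ∃ F : Finset ℕ, F.card = N ∧
      ∀ k ∈ F, (Sel (D * m k)).ncard = 3 ^ (r + 1)) atTop (nhds 1) := by
    intro r N
    have h1 := Q283.T3B.manyK (K := K) hm' {r} (by rw [Q283.T3B.sing]; exact Q283.T3B.cr_pos r) N
    refine h1.congr fun X => ?_
    unfold proportion
    rw [e0, e1]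
    congr 2
    refine Pool.Agent.XLK.fcc fun D _ => ?_
    refine exists_congr fun F => and_congr_right fun _ => forall_congr' fun k => forall_congr' fun _ => ?_
    constructor
    · rintro ⟨s, hs, h⟩
      rw [Set.mem_singleton_iff] at hs
      rw [← hs]
      exact h
    · exact fun h => ⟨r, rfl, h⟩
  refine ⟨?_, hone, ?_, hmany, ?_, Q283.T3B.sum_cr, Q283.T3B.cr_pos, ?_⟩
  · obtain ⟨c, hc, X₀, h⟩ := Q283.T3B.low_K K 1 one_ne_zero
    refine ⟨c, hc, X₀, fun X hX => (h X hX).trans (le_of_eq ?_)⟩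
    congr 2
    ext D
    exact ⟨fun h => ⟨h.1, h.2.1⟩, fun h => ⟨h.1, h.2, Q283.T3B.nc_one D⟩⟩
  · intro T n hn ε hε δ hδ
    obtain ⟨X₀, h⟩ := eventually_atTop.1 (Q283.T3B.lnK (K := K) hm' T n hn ε hε δ hδ)
    refine ⟨X₀, fun X hX => le_trans (le_of_eq ?_) (h X hX)⟩
    unfold proportion
    rw [e0, e1]
    rfl
  · intro N
    rw [tendsto_order]
    constructor
    · intro b hb
      filter_upwards [(tendsto_order.1 (hmany 0 N)).1 b hb] with X hX
      refine hX.trans_le ?_
      unfold proportion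
      refine div_le_div_of_nonneg_right ?_ (Nat.cast_nonneg _)
      rw [e1, e1, Nat.cast_le]
      refine Finset.card_le_card fun D hD => ?_
      rw [Finset.mem_filter] at hD ⊢
      obtain ⟨h1, F, h2, h3⟩ := hD
      refine ⟨h1, F, h2, fun k hk => ?_⟩
      obtain ⟨r, h4, -, h5, h6⟩ := hone D (Q283.T3B.mem_SK.1 h1).2 k
      have h7 : r = 0 := by
        have := Nat.pow_right_injective (by norm_num : 2 ≤ 3) (h4.symm.trans (h3 k hk))
        omega
      exact ⟨h5.1 h7, h6 h7⟩
    · intro b hb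
      refine Eventually.of_forall fun X => lt_of_le_of_lt ?_ hb
      unfold proportion
      rw [e0, e1]
      refine div_le_one_of_le₀ ?_ (Nat.cast_nonneg _)
      exact_mod_cast Finset.card_filter_le _ _
  · obtain ⟨-, -, -, h4, h5⟩ := Pool.Agent.Y703.XL.t_C9
    have hp : prob 0 = Pool.Agent.Y703.XK.c9 := by
      unfold prob
      rw [Finset.range_zero, Finset.prod_empty, div_one]
      rfl
    rw [hp]
    exact ⟨h4, h5⟩

end Pool.Agent.Results.MP_cd906c_nt.AlmostAllTwistSequences
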